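import Pool.Agent.R349.SNDefs

/-!
A semigroup that is left and right 2-nilpotent and not supernilpotent.
Problem MP_d3d931_al, Q2.
-/

namespace Pool.Agent.H95.SNQ

open Pool.Agent.R349.SN

/-- Elements: `f` (the first letter is `c` or `d`), `g` (the last letter is `c'` or `d'`),
two numbers and a flag. -/
@[ext] structure E where
  f : Bool
  g : Bool
  p : ℕ
  q : ℕ
  s : Bool
  hf : f = true → 1 ≤ p + q
  hg : g = true → 1 ≤ p + q

/-- The flag of a product. -/
def flag (x y : E) : Bool :=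
  x.f && y.g && decide (x.p + y.p = 1) && decide (x.q + y.q = 1) && decide (x.p = 1)

instance : Mul E :=
  ⟨fun x y => ⟨x.f, y.g, x.p + y.p, x.q + y.q, flag x y,
    fun h => by have := x.hf h; omega, fun h => by have := y.hg h; omega⟩⟩

@[simp] theorem mul_f (x y : E) : (x * y).f = x.f := rfl
@[simp] theorem mul_g (x y : E) : (x * y).g = y.g := rfl
@[simp] theorem mul_p (x y : E) : (x * y).p = x.p + y.p := rfl
@[simp] theorem mul_q (x y : E) : (x * y).q = x.q + y.q := rfl
@[simp] theorem mul_s (x y : E) : (x * y).s = flag x y := rfl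

theorem flag_assoc (x y z : E) : flag (x * y) z = flag x (y * z) := by
  rw [Bool.eq_iff_iff]
  simp only [flag, mul_f, mul_g, mul_p, mul_q, Bool.and_eq_true, decide_eq_true_eq]
  constructor
  · rintro ⟨⟨⟨⟨h1, h2⟩, h3⟩, h4⟩, h5⟩
    have := x.hf h1
    have := z.hg h2
    refine ⟨⟨⟨⟨h1, h2⟩, ?_⟩, ?_⟩, ?_⟩ <;> omega
  · rintro ⟨⟨⟨⟨h1, h2⟩, h3⟩, h4⟩, h5⟩
    have := x.hf h1
    have := z.hg h2
    refine ⟨⟨⟨⟨h1, h2⟩, ?_⟩, ?_⟩, ?_⟩ <;> omega

instance : Semigroup E where
  mul_assoc x y z := by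
    ext
    · rfl
    · rfl
    · simp [Nat.add_assoc]
    · simp [Nat.add_assoc]
    · exact flag_assoc x y z

/-- Forgetting the flag. -/
def κ : Con E where
  r x y := x.f = y.f ∧ x.g = y.g ∧ x.p = y.p ∧ x.q = y.q
  iseqv := ⟨fun _ => ⟨rfl, rfl, rfl, rfl⟩,
    fun h => ⟨h.1.symm, h.2.1.symm, h.2.2.1.symm, h.2.2.2.symm⟩,
    fun h k => ⟨h.1.trans k.1, h.2.1.trans k.2.1, h.2.2.1.trans k.2.2.1, h.2.2.2.trans k.2.2.2⟩⟩
  mul' := by
    intro a b c d h k
    exact ⟨h.1, k.2.1, by simp [h.2.2.1, k.2.2.1], by simp [h.2.2.2, k.2.2.2]⟩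

theorem κ_iff (x y : E) : κ x y ↔ x.f = y.f ∧ x.g = y.g ∧ x.p = y.p ∧ x.q = y.q := Iff.rfl

/-- Products of `κ`-related elements are equal. -/
theorem κ_mul {a b c d : E} (h : κ a b) (k : κ c d) : a * c = b * d := by
  rw [κ_iff] at h k
  obtain ⟨h1, h2, h3, h4⟩ := h
  obtain ⟨k1, k2, k3, k4⟩ := k
  ext
  · exact h1
  · exact k2
  · simp [h3, k3]
  · simp [h4, k4]
  · simp [flag, h1, k2, h3, k3, h4, k4]

theorem fin1_false_ne : (fun _ : Fin 1 => false) ≠ (fun _ => true) := by
  intro h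
  exact absurd (congrFun h 0) (by decide)

/-- The quotient by `κ` is abelian. -/
theorem cen_top_top : Cen (fun _ : Fin 1 => (⊤ : Con E)) ⊤ κ := by
  intro x hx hrow
  have key : ((∀ ε, (x ε false).f = (x ε true).f) ∨
        ∀ j, (x (fun _ => false) j).f = (x (fun _ => true) j).f) ∧
      ((∀ ε, (x ε false).g = (x ε true).g) ∨
        ∀ j, (x (fun _ => false) j).g = (x (fun _ => true) j).g) ∧
      (x (fun _ => false) false).p + (x (fun _ => true) true).p =
        (x (fun _ => false) true).p + (x (fun _ => true) false).p ∧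
      (x (fun _ => false) false).q + (x (fun _ => true) true).q =
        (x (fun _ => false) true).q + (x (fun _ => true) false).q := by
    clear hrow
    replace hx : x ∈ MM (fun _ : Fin 1 => (⊤ : Con E)) ⊤ := hx
    induction hx using Subsemigroup.closure_induction with
    | mem x hx =>
      rcases hx with ⟨i, a, b, _, rfl⟩ | ⟨a, b, _, rfl⟩
      · simp
      · simp [add_comm]
    | mul x y hx hy ihx ihy =>
      obtain ⟨x1, x2, x3, x4⟩ := ihx
      obtain ⟨y1, y2, y3, y4⟩ := ihy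
      refine ⟨x1, y2, ?_, ?_⟩
      · simp only [Pi.mul_apply, mul_p]; omega
      · simp only [Pi.mul_apply, mul_q]; omega
  have h0 := hrow _ fin1_false_ne
  rw [κ_iff] at h0 ⊢
  obtain ⟨a1, a2, a3, a4⟩ := h0
  obtain ⟨k1, k2, k3, k4⟩ := key
  refine ⟨?_, ?_, by omega, by omega⟩
  · rcases k1 with h | h
    · exact h _
    · rw [← h, ← h, a1]
  · rcases k2 with h | h
    · exact h _
    · rw [← h, ← h, a2]

/-- `[1, κ] = 0`. -/
theorem cen_top_κ : Cen (fun _ : Fin 1 => (⊤ : Con E)) κ ⊥ := by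
  intro x hx hrow
  have key : (∀ ε, κ (x ε false) (x ε true)) ∧
      (x ∈ gens (fun _ : Fin 1 => (⊤ : Con E)) κ ∨ ∀ ε, x ε false = x ε true) := by
    clear hrow
    replace hx : x ∈ MM (fun _ : Fin 1 => (⊤ : Con E)) κ := hx
    induction hx using Subsemigroup.closure_induction with
    | mem x hx =>
      refine ⟨?_, Or.inl hx⟩
      rcases hx with ⟨i, a, b, _, rfl⟩ | ⟨a, b, hab, rfl⟩
      · intro ε; exact κ.refl _
      · intro ε; simpa using hab
    | mul x y hx hy ihx ihy =>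
      have h : ∀ ε, (x * y) ε false = (x * y) ε true := fun ε => κ_mul (ihx.1 ε) (ihy.1 ε)
      exact ⟨fun ε => by rw [h ε]; exact κ.refl _, Or.inr h⟩
  rcases key.2 with h | h
  · rcases h with ⟨i, a, b, _, rfl⟩ | ⟨a, b, hab, rfl⟩
    · exact (⊥ : Con E).refl _
    · have := hrow _ fin1_false_ne
      simpa using this
  · rw [h]; exact (⊥ : Con E).refl _

/-- `[κ, 1] = 0`. -/
theorem cen_κ_top : Cen (fun _ : Fin 1 => κ) ⊤ (⊥ : Con E) := by
  intro x hx hrow
  have key : (∀ ε ε' j, κ (x ε j) (x ε' j)) ∧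
      (x ∈ gens (fun _ : Fin 1 => κ) (⊤ : Con E) ∨ ∀ ε ε' j, x ε j = x ε' j) := by
    clear hrow
    replace hx : x ∈ MM (fun _ : Fin 1 => κ) (⊤ : Con E) := hx
    induction hx using Subsemigroup.closure_induction with
    | mem x hx =>
      refine ⟨?_, Or.inl hx⟩
      rcases hx with ⟨i, a, b, hab, rfl⟩ | ⟨a, b, hab, rfl⟩
      · intro ε ε' j
        dsimp only
        split_ifs
        · exact κ.refl _
        · exact κ.symm hab
        · exact hab
        · exact κ.refl _
      · intro ε ε' j; exact κ.refl _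
    | mul x y hx hy ihx ihy =>
      have h : ∀ ε ε' j, (x * y) ε j = (x * y) ε' j :=
        fun ε ε' j => κ_mul (ihx.1 ε ε' j) (ihy.1 ε ε' j)
      exact ⟨fun ε ε' j => by rw [h ε ε']; exact κ.refl _, Or.inr h⟩
  have h0 := hrow _ fin1_false_ne
  rcases key.2 with h | h
  · rcases h with ⟨i, a, b, _, rfl⟩ | ⟨a, b, hab, rfl⟩
    · exact (⊥ : Con E).refl _
    · simpa using h0
  · rw [h (fun _ => true) (fun _ => false) false, h (fun _ => true) (fun _ => false) true]
    exact h0

theorem leftS_two : leftS E 2 = ⊥ :=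
  eq_bot_iff.2 (leftS_step (leftS_step (le_refl _) cen_top_top) cen_top_κ)

theorem rightS_two : rightS E 2 = ⊥ :=
  eq_bot_iff.2 (rightS_step (rightS_step (le_refl _) cen_top_top) cen_κ_top)

section mats
variable {S : Type*} [Semigroup S]

/-- The matrix of `y x_0 … x_{k-1}` with `y ∈ {c, d}` and `x_i ∈ {a, b}`. -/
def W (n : ℕ) (c d a b : S) : (k : ℕ) → k ≤ n → Mat n S
  | 0, _ => fun _ j => if j = true then d else c
  | k + 1, h => W n c d a b k (Nat.le_of_succ_le h) *
      fun ε _ => if ε ⟨k, h⟩ = true then b else a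

theorem W_mem (n : ℕ) (c d a b : S) (k : ℕ) (h : k ≤ n) :
    W n c d a b k h ∈ MM (S := S) (fun _ : Fin n => ⊤) ⊤ := by
  induction k with
  | zero => exact Subsemigroup.subset_closure (Or.inr ⟨c, d, trivial, rfl⟩)
  | succ k ih =>
    exact (MM _ _).mul_mem (ih (Nat.le_of_succ_le h))
      (Subsemigroup.subset_closure (Or.inl ⟨⟨k, h⟩, a, b, trivial, rfl⟩))

/-- The matrix of `y x_0 … x_{n-1} y'` with `(y, y') ∈ {(c, c'), (d, d')}`. -/
def V (n : ℕ) (c d a b c' d' : S) : Mat n S :=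
  W n c d a b n (le_refl n) * fun _ j => if j = true then d' else c'

theorem V_mem (n : ℕ) (c d a b c' d' : S) :
    V n c d a b c' d' ∈ MM (S := S) (fun _ : Fin n => ⊤) ⊤ :=
  (MM _ _).mul_mem (W_mem n c d a b n (le_refl n))
    (Subsemigroup.subset_closure (Or.inr ⟨c', d', trivial, rfl⟩))

theorem W_map {T : Type*} [Semigroup T] (φ : S →ₙ* T) (n : ℕ) (c d a b : S) (k : ℕ) (h : k ≤ n)
    (ε : Fin n → Bool) (j : Bool) :
    φ (W n c d a b k h ε j) = W n (φ c) (φ d) (φ a) (φ b) k h ε j := by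
  induction k with
  | zero => simp only [W]; split_ifs <;> rfl
  | succ k ih =>
    simp only [W, Pi.mul_apply, map_mul, ih]
    split_ifs <;> rfl

theorem V_map {T : Type*} [Semigroup T] (φ : S →ₙ* T) (n : ℕ) (c d a b c' d' : S)
    (ε : Fin n → Bool) (j : Bool) :
    φ (V n c d a b c' d' ε j) = V n (φ c) (φ d) (φ a) (φ b) (φ c') (φ d') ε j := by
  simp only [V, Pi.mul_apply, map_mul, W_map]
  split_ifs <;> rfl

end mats

/-- The generators. -/
def ec : E := ⟨true, false, 1, 0, false, by simp, by simp⟩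
def ed : E := ⟨true, false, 0, 1, false, by simp, by simp⟩
def ec' : E := ⟨false, true, 0, 1, false, by simp, by simp⟩
def ed' : E := ⟨false, true, 1, 0, false, by simp, by simp⟩
def eb : E := ⟨false, false, 0, 0, false, by simp, by simp⟩

theorem eb_p : eb.p = 0 := rfl
theorem eb_q : eb.q = 0 := rfl
theorem ec_p : ec.p = 1 := rfl
theorem ec_q : ec.q = 0 := rfl

theorem W_val (n : ℕ) (k : ℕ) (h : k ≤ n) (ε : Fin n → Bool) :
    ∃ m, (∀ j, (W n ec ed ec eb k h ε j).f = true) ∧
      (W n ec ed ec eb k h ε false).p = m + 1 ∧ (W n ec ed ec eb k h ε false).q = 0 ∧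
      (W n ec ed ec eb k h ε true).p = m ∧ (W n ec ed ec eb k h ε true).q = 1 ∧
      (m = 0 ↔ ∀ i : Fin n, i.1 < k → ε i = true) := by
  induction k with
  | zero => exact ⟨0, by simp [W, ec, ed]⟩
  | succ k ih =>
    obtain ⟨m, h1, h2, h3, h4, h5, h6⟩ := ih (Nat.le_of_succ_le h)
    by_cases hε : ε ⟨k, h⟩ = true
    · refine ⟨m, ?_, ?_, ?_, ?_, ?_, ?_⟩
      · intro j; simp only [W, Pi.mul_apply, mul_f]; exact h1 j
      · simp [W, h2, hε, eb_p]
      · simp [W, h3, hε, eb_q]
      · simp [W, h4, hε, eb_p]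
      · simp [W, h5, hε, eb_q]
      · rw [h6]
        constructor
        · intro hh i hi
          rcases Nat.lt_succ_iff_lt_or_eq.1 hi with h' | h'
          · exact hh i h'
          · have : i = ⟨k, h⟩ := Fin.ext h'
            rw [this]; exact hε
        · intro hh i hi
          exact hh i (Nat.lt_succ_of_lt hi)
    · refine ⟨m + 1, ?_, ?_, ?_, ?_, ?_, ?_⟩
      · intro j; simp only [W, Pi.mul_apply, mul_f]; exact h1 j
      · simp [W, h2, hε, ec_p]
      · simp [W, h3, hε, ec_q]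
      · simp [W, h4, hε, ec_p]
      · simp [W, h5, hε, ec_q]
      · constructor
        · intro hh; omega
        · intro hh
          exact absurd (hh ⟨k, h⟩ (Nat.lt_succ_self k)) hε

theorem V_ne (n : ℕ) : V n ec ed ec eb ec' ed' (fun _ => true) false ≠
    V n ec ed ec eb ec' ed' (fun _ => true) true := by
  obtain ⟨m, h1, h2, h3, h4, h5, h6⟩ := W_val n n (le_refl n) (fun _ => true)
  have hm : m = 0 := h6.2 fun _ _ => rfl
  subst hm
  intro h
  have := congrArg E.s h
  simp [V, flag, h1, h2, h3, h4, h5, ec', ed'] at this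

theorem V_eq (n : ℕ) (ε : Fin n → Bool) (hε : ε ≠ fun _ => true) :
    V n ec ed ec eb ec' ed' ε false = V n ec ed ec eb ec' ed' ε true := by
  obtain ⟨m, h1, h2, h3, h4, h5, h6⟩ := W_val n n (le_refl n) ε
  have hm : m ≠ 0 := fun h => hε (funext fun i => h6.1 h i i.2)
  ext
  · simp [V, h1]
  · simp [V, ec', ed']
  · simp [V, h2, h4, ec', ed']
  · simp [V, h3, h5, ec', ed']
  · simp [V, flag, h1, h2, h3, h4, h5, ec', ed', hm]

/-- The five generators. -/
def genSet : Set E := {ec, ed, ec', ed', eb}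

/-- The semigroup generated by the five elements. -/
abbrev S5 : Type := Subsemigroup.closure genSet

theorem ec_mem : ec ∈ Subsemigroup.closure genSet :=
  Subsemigroup.subset_closure (by simp [genSet])
theorem ed_mem : ed ∈ Subsemigroup.closure genSet :=
  Subsemigroup.subset_closure (by simp [genSet])
theorem ec'_mem : ec' ∈ Subsemigroup.closure genSet :=
  Subsemigroup.subset_closure (by simp [genSet])
theorem ed'_mem : ed' ∈ Subsemigroup.closure genSet :=
  Subsemigroup.subset_closure (by simp [genSet])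
theorem eb_mem : eb ∈ Subsemigroup.closure genSet :=
  Subsemigroup.subset_closure (by simp [genSet])

theorem S5_left : leftS S5 2 = ⊥ := by
  rw [eq_bot_iff]
  intro x y h
  have := leftS_map (f := fun x : S5 => (x : E)) (Or.inl fun _ _ => rfl) 2 x y h
  rw [leftS_two] at this
  exact Subtype.ext this

theorem S5_right : rightS S5 2 = ⊥ := by
  rw [eq_bot_iff]
  intro x y h
  have := rightS_map (f := fun x : S5 => (x : E)) (Or.inl fun _ _ => rfl) 2 x y h
  rw [rightS_two] at this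
  exact Subtype.ext this

theorem S5_not (n : ℕ) : ¬ Supernilpotent S5 n := by
  rw [supernilpotent_iff]
  intro h
  have hmap := V_map (S := S5) (T := E) (MulMemClass.subtype (Subsemigroup.closure genSet)) n
    ⟨ec, ec_mem⟩ ⟨ed, ed_mem⟩ ⟨ec, ec_mem⟩ ⟨eb, eb_mem⟩ ⟨ec', ec'_mem⟩ ⟨ed', ed'_mem⟩
  have := h _ (V_mem n (⟨ec, ec_mem⟩ : S5) ⟨ed, ed_mem⟩ ⟨ec, ec_mem⟩ ⟨eb, eb_mem⟩
    ⟨ec', ec'_mem⟩ ⟨ed', ed'_mem⟩) (by
      intro ε hε
      apply Subtype.ext
      have h1 := hmap ε false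
      have h2 := hmap ε true
      simp only [MulMemClass.coe_subtype] at h1 h2
      rw [h1, h2]
      exact V_eq n ε hε)
  have h3 := congrArg (Subtype.val) this
  have h1 := hmap (fun _ => true) false
  have h2 := hmap (fun _ => true) true
  simp only [MulMemClass.coe_subtype] at h1 h2
  rw [h1, h2] at h3
  exact V_ne n h3

theorem S5_fg : ∃ t : Finset S5, t.card ≤ 5 ∧ Subsemigroup.closure (t : Set S5) = ⊤ := by
  classical
  refine ⟨{⟨ec, ec_mem⟩, ⟨ed, ed_mem⟩, ⟨ec', ec'_mem⟩, ⟨ed', ed'_mem⟩, ⟨eb, eb_mem⟩},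
    Finset.card_le_five, ?_⟩
  rw [eq_top_iff]
  rintro ⟨x, hx⟩ -
  induction hx using Subsemigroup.closure_induction with
  | mem x hx =>
    apply Subsemigroup.subset_closure
    rcases hx with rfl | rfl | rfl | rfl | rfl <;> simp
  | mul x y hx hy ihx ihy => exact Subsemigroup.mul_mem _ ihx ihy

end Pool.Agent.H95.SNQ
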